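import Mathlib

/-!
A connected binary matroid on nine elements whose Penrose polynomial is `(X - 1)^2 (X - 2)^3`.
-/

set_option autoImplicit false

namespace Pool.Agent.Results.MP_8c6d5c_co.DoubleRoot

open Polynomial

section Defs

variable {E : Type} [Fintype E] [DecidableEq E]

/-- The cocycle space `𝒞^⊥`: the vectors `x` (indicator vectors of subsets of `E`) with
`|x ∩ c|` even for every cycle `c`. -/
def cocycles (C : Submodule (ZMod 2) (E → ZMod 2)) : Submodule (ZMod 2) (E → ZMod 2) where
  carrier := {x | ∀ c ∈ C, ∑ e, x e * c e = 0}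
  add_mem' := by
    intro x y hx hy c hc
    have h1 := hx c hc
    have h2 := hy c hc
    simp only [Pi.add_apply, add_mul, Finset.sum_add_distrib, h1, h2, add_zero]
  zero_mem' := by
    intro c _
    simp
  smul_mem' := by
    intro a x hx c hc
    have h1 := hx c hc
    simp only [Pi.smul_apply, smul_eq_mul, mul_assoc, ← Finset.mul_sum, h1, mul_zero]

/-- The indicator vector of `x ∩ A`. -/
def cap (A : Finset E) (x : E → ZMod 2) : E → ZMod 2 := fun e => if e ∈ A then x e else 0

/-- The bicycle space `B_M(A) = {c ∈ 𝒞 : c ∩ A ∈ 𝒦}`. -/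
def bicycles (C : Submodule (ZMod 2) (E → ZMod 2)) (A : Finset E) :
    Submodule (ZMod 2) (E → ZMod 2) where
  carrier := {c | c ∈ C ∧ cap A c ∈ cocycles C}
  add_mem' := by
    rintro x y ⟨hx, hx'⟩ ⟨hy, hy'⟩
    refine ⟨C.add_mem hx hy, ?_⟩
    have : cap A (x + y) = cap A x + cap A y := by
      funext e
      simp only [cap, Pi.add_apply]
      split_ifs <;> simp
    rw [this]
    exact (cocycles C).add_mem hx' hy'
  zero_mem' := by
    refine ⟨C.zero_mem, ?_⟩
    have : cap A (0 : E → ZMod 2) = 0 := by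
      funext e
      simp [cap]
    rw [this]
    exact (cocycles C).zero_mem
  smul_mem' := by
    rintro a x ⟨hx, hx'⟩
    refine ⟨C.smul_mem a hx, ?_⟩
    have : cap A (a • x) = a • cap A x := by
      funext e
      simp only [cap, Pi.smul_apply, smul_eq_mul]
      split_ifs <;> simp
    rw [this]
    exact (cocycles C).smul_mem a hx'

/-- The Penrose polynomial of the binary matroid with cycle space `C`. -/
noncomputable def penrose (C : Submodule (ZMod 2) (E → ZMod 2)) : ℤ[X] :=
  ∑ A : Finset E, (-1) ^ A.card * X ^ Module.finrank (ZMod 2) (bicycles C A)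

/-- The binary matroid with cycle space `C` is connected: `E` is nonempty and there is no
partition of `E` into nonempty parts `E₁`, `E \ E₁` such that `𝒞` consists of the unions
`C₁ ∪ C₂` with `C₁, C₂ ∈ 𝒞`, `C₁ ⊆ E₁` and `C₂ ⊆ E \ E₁`. -/
def Connected (C : Submodule (ZMod 2) (E → ZMod 2)) : Prop :=
  Nonempty E ∧ ¬ ∃ E₁ : Finset E, E₁.Nonempty ∧ E₁ᶜ.Nonempty ∧
    ∀ c : E → ZMod 2, c ∈ C ↔ ∃ c₁ ∈ C, ∃ c₂ ∈ C,
      (∀ e, e ∉ E₁ → c₁ e = 0) ∧ (∀ e ∈ E₁, c₂ e = 0) ∧ c = c₁ + c₂

end Defs

/-- The five generators of the cycle space, as bit masks of subsets of `Fin 9`. -/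
def row : ℕ → ℕ
  | 0 => 0b001110111
  | 1 => 0b101100111
  | 2 => 0b110111010
  | 3 => 0b111011100
  | 4 => 0b111100000
  | _ => 0

/-- The bit mask of the cycle `∑ u_i row_i`. -/
def enc (u : ℕ) : ℕ :=
  (if u.testBit 0 then row 0 else 0) ^^^ ((if u.testBit 1 then row 1 else 0) ^^^
    ((if u.testBit 2 then row 2 else 0) ^^^ ((if u.testBit 3 then row 3 else 0) ^^^
      (if u.testBit 4 then row 4 else 0))))

/-- The vector with a given bit mask. -/
def vec (m : ℕ) : Fin 9 → ZMod 2 := fun e => if m.testBit e then 1 else 0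

/-- The set with a given bit mask. -/
def dec (m : ℕ) : Finset (Fin 9) := Finset.univ.filter (fun e => m.testBit e = true)

/-- Parity of the number of bits among the first nine. -/
def par (x : ℕ) : Bool :=
  x.testBit 0 ^^ (x.testBit 1 ^^ (x.testBit 2 ^^ (x.testBit 3 ^^ (x.testBit 4 ^^ (x.testBit 5 ^^
    (x.testBit 6 ^^ (x.testBit 7 ^^ x.testBit 8)))))))

/-- The element of `ZMod 2` of a bit. -/
def bt (b : Bool) : ZMod 2 := if b then 1 else 0

lemma bt_xor : ∀ a b : Bool, bt a + bt b = bt (a ^^ b) := by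
  decide

lemma sum_vec (m : ℕ) : ∑ e, vec m e = if par m then 1 else 0 := by
  change ∑ e : Fin 9, bt (m.testBit e) = bt (par m)
  rw [par, ← bt_xor, ← bt_xor, ← bt_xor, ← bt_xor, ← bt_xor, ← bt_xor, ← bt_xor, ← bt_xor]
  simp only [Fin.sum_univ_succ, Finset.univ_eq_empty, Finset.sum_empty, add_zero]
  rfl

lemma vec_mul (a b : ℕ) (e : Fin 9) : vec a e * vec b e = vec (a &&& b) e := by
  simp only [vec, Nat.testBit_and]
  cases a.testBit e <;> cases b.testBit e <;> simp

lemma vec_xor (a b : ℕ) : vec (a ^^^ b) = vec a + vec b := by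
  funext e
  simp only [vec, Nat.testBit_xor, Pi.add_apply]
  cases a.testBit e <;> cases b.testBit e <;> decide

lemma vec_zero : vec 0 = 0 := by
  funext e
  simp [vec]

lemma vec_inj {a b : ℕ} (ha : a < 512) (hb : b < 512) (h : vec a = vec b) : a = b := by
  apply Nat.eq_of_testBit_eq
  intro i
  rcases Nat.lt_or_ge i 9 with hi | hi
  · have := congrFun h ⟨i, hi⟩
    simp only [vec] at this
    cases h1 : a.testBit i <;> cases h2 : b.testBit i <;> simp_all
  · rw [Nat.testBit_lt_two_pow (lt_of_lt_of_le ha (le_trans (by norm_num)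
      (Nat.pow_le_pow_right (by norm_num : 0 < 2) hi))),
      Nat.testBit_lt_two_pow (lt_of_lt_of_le hb (le_trans (by norm_num)
      (Nat.pow_le_pow_right (by norm_num : 0 < 2) hi)))]

lemma mem_dec (m : ℕ) (e : Fin 9) : e ∈ dec m ↔ m.testBit e = true := by
  simp [dec]

lemma dec_inj {a b : ℕ} (ha : a < 512) (hb : b < 512) (h : dec a = dec b) : a = b := by
  apply vec_inj ha hb
  funext e
  have : e ∈ dec a ↔ e ∈ dec b := by rw [h]
  rw [mem_dec, mem_dec] at this
  simp only [vec, this]

lemma dec_bij : Function.Bijective (fun m : Fin 512 => dec m) := by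
  rw [Fintype.bijective_iff_injective_and_card]
  refine ⟨fun a b h => Fin.ext (dec_inj a.2 b.2 h), ?_⟩
  rw [Fintype.card_fin, Fintype.card_finset, Fintype.card_fin]
  norm_num

lemma vec_surj (x : Fin 9 → ZMod 2) : ∃ m < 512, vec m = x := by
  have hb : Function.Bijective (fun m : Fin 512 => vec m) := by
    rw [Fintype.bijective_iff_injective_and_card]
    refine ⟨fun a b h => Fin.ext (vec_inj a.2 b.2 h), ?_⟩
    rw [Fintype.card_fin, Fintype.card_fun, ZMod.card, Fintype.card_fin]
    norm_num
  obtain ⟨m, hm⟩ := hb.2 x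
  exact ⟨m, m.2, hm⟩

lemma enc_lt : ∀ u ∈ List.range 32, enc u < 512 := by decide +kernel

lemma enc_xor : ∀ u ∈ List.range 32, ∀ w ∈ List.range 32, enc u ^^^ enc w = enc (u ^^^ w) := by
  decide +kernel

lemma enc_inj : ∀ u ∈ List.range 32, ∀ w ∈ List.range 32, enc u = enc w → u = w := by
  decide +kernel

/-- The cycle space. -/
def CC : Submodule (ZMod 2) (Fin 9 → ZMod 2) where
  carrier := {x | ∃ u < 32, x = vec (enc u)}
  add_mem' := by
    rintro _ _ ⟨u, hu, rfl⟩ ⟨w, hw, rfl⟩
    refine ⟨u ^^^ w, Nat.xor_lt_two_pow (n := 5) hu hw, ?_⟩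
    rw [← vec_xor, enc_xor u (List.mem_range.2 hu) w (List.mem_range.2 hw)]
  zero_mem' := ⟨0, by norm_num, by rw [show enc 0 = 0 by decide, vec_zero]⟩
  smul_mem' := by
    rintro a _ ⟨u, hu, rfl⟩
    have : a = 0 ∨ a = 1 := by
      revert a
      decide
    rcases this with rfl | rfl
    · exact ⟨0, by norm_num, by rw [show enc 0 = 0 by decide, vec_zero, zero_smul]⟩
    · exact ⟨u, hu, by rw [one_smul]⟩

lemma mem_CC {x : Fin 9 → ZMod 2} : x ∈ CC ↔ ∃ u < 32, x = vec (enc u) := Iff.rfl

lemma cap_vec (m a : ℕ) : cap (dec m) (vec a) = vec (a &&& m) := by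
  funext e
  simp only [cap, mem_dec, vec, Nat.testBit_and]
  cases a.testBit e <;> cases m.testBit e <;> simp

/-- Orthogonality of the set with mask `x` to the generators. -/
def good (x : ℕ) : Bool :=
  !par (x &&& row 0) && (!par (x &&& row 1) && (!par (x &&& row 2) && (!par (x &&& row 3) &&
    !par (x &&& row 4))))

lemma sum_mul_vec (a b : ℕ) : ∑ e, vec a e * vec b e = if par (a &&& b) then 1 else 0 := by
  rw [← sum_vec]
  exact Finset.sum_congr rfl fun e _ => vec_mul a b e

lemma mem_cocycles (a : ℕ) : vec a ∈ cocycles CC ↔ good a = true := by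
  constructor
  · intro h
    have key : ∀ i < 5, par (a &&& row i) = false := by
      intro i hi
      have hr : vec (row i) ∈ CC := by
        refine ⟨2 ^ i, ?_, ?_⟩
        · exact lt_of_lt_of_le (Nat.pow_lt_pow_right (by norm_num) hi) (by norm_num)
        · congr 1
          interval_cases i <;> decide
      have := h _ hr
      rw [sum_mul_vec] at this
      by_contra hne
      rw [Bool.not_eq_false] at hne
      rw [hne] at this
      exact absurd this (by decide)
    simp only [good, key 0 (by norm_num), key 1 (by norm_num), key 2 (by norm_num),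
      key 3 (by norm_num), key 4 (by norm_num)]
    rfl
  · intro h
    simp only [good, Bool.and_eq_true, Bool.not_eq_true'] at h
    have hrow : ∀ i < 5, ∑ e, vec a e * vec (row i) e = 0 := by
      intro i hi
      rw [sum_mul_vec]
      interval_cases i
      · rw [h.1]; rfl
      · rw [h.2.1]; rfl
      · rw [h.2.2.1]; rfl
      · rw [h.2.2.2.1]; rfl
      · rw [h.2.2.2.2]; rfl
    rintro _ ⟨u, hu, rfl⟩
    have hadd : ∀ x y : Fin 9 → ZMod 2, ∑ e, vec a e * (x + y) e =
        ∑ e, vec a e * x e + ∑ e, vec a e * y e := by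
      intro x y
      rw [← Finset.sum_add_distrib]
      exact Finset.sum_congr rfl fun e _ => by rw [Pi.add_apply, mul_add]
    have hz : ∑ e, vec a e * vec 0 e = 0 := by
      rw [vec_zero]
      simp
    rw [enc, vec_xor, vec_xor, vec_xor, vec_xor, hadd, hadd, hadd, hadd]
    have hi : ∀ i < 5, ∀ b : Bool, ∑ e, vec a e * vec (if b then row i else 0) e = 0 := by
      intro i hi b
      cases b
      · exact hz
      · exact hrow i hi
    rw [hi 0 (by norm_num), hi 1 (by norm_num), hi 2 (by norm_num), hi 3 (by norm_num),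
      hi 4 (by norm_num)]
    simp

/-- The number of bicycles of the set with mask `m`. -/
def cnt (m : ℕ) : ℕ := ((Finset.range 32).filter (fun u => good (enc u &&& m) = true)).card

lemma card_bicycles (m : ℕ) : Nat.card (bicycles CC (dec m)) = cnt m := by
  have h : ((bicycles CC (dec m) : Submodule (ZMod 2) (Fin 9 → ZMod 2)) : Set (Fin 9 → ZMod 2)) =
      (fun u => vec (enc u)) '' (((Finset.range 32).filter
        (fun u => good (enc u &&& m) = true) : Finset ℕ) : Set ℕ) := by
    ext x
    constructor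
    · rintro ⟨⟨u, hu, rfl⟩, h2⟩
      rw [cap_vec, mem_cocycles] at h2
      refine ⟨u, ?_, rfl⟩
      rw [Finset.mem_coe, Finset.mem_filter, Finset.mem_range]
      exact ⟨hu, h2⟩
    · rintro ⟨u, hu, rfl⟩
      rw [Finset.mem_coe, Finset.mem_filter, Finset.mem_range] at hu
      refine ⟨⟨u, hu.1, rfl⟩, ?_⟩
      rw [cap_vec, mem_cocycles]
      exact hu.2
  have h2 : Nat.card (bicycles CC (dec m)) =
      ((bicycles CC (dec m) : Submodule (ZMod 2) (Fin 9 → ZMod 2)) : Set (Fin 9 → ZMod 2)).ncard :=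
    Nat.card_coe_set_eq _
  rw [h2, h, Set.InjOn.ncard_image, Set.ncard_coe_finset, cnt]
  intro u hu w hw huw
  rw [Finset.mem_coe, Finset.mem_filter, Finset.mem_range] at hu hw
  exact enc_inj u (List.mem_range.2 hu.1) w (List.mem_range.2 hw.1)
    (vec_inj (enc_lt u (List.mem_range.2 hu.1)) (enc_lt w (List.mem_range.2 hw.1)) huw)

/-- Base two logarithm for the arguments that occur. -/
def lg (c : ℕ) : ℕ :=
  if c = 1 then 0 else if c = 2 then 1 else if c = 4 then 2 else if c = 8 then 3 else
    if c = 16 then 4 else 5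

lemma finrank_bicycles (m : ℕ) :
    Module.finrank (ZMod 2) (bicycles CC (dec m)) = lg (cnt m) := by
  have h := Module.natCard_eq_pow_finrank (K := ZMod 2) (V := bicycles CC (dec m))
  rw [card_bicycles, Nat.card_eq_fintype_card, ZMod.card] at h
  have hle : cnt m ≤ 32 := by
    have := Finset.card_filter_le (Finset.range 32) (fun u => good (enc u &&& m) = true)
    rwa [Finset.card_range] at this
  have hf : Module.finrank (ZMod 2) (bicycles CC (dec m)) ≤ 5 := by
    by_contra hcon
    have : 2 ^ 6 ≤ 2 ^ Module.finrank (ZMod 2) (bicycles CC (dec m)) :=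
      Nat.pow_le_pow_right (by norm_num) (by omega)
    omega
  rw [h]
  interval_cases Module.finrank (ZMod 2) (bicycles CC (dec m)) <;> rfl

lemma card_dec : ∀ m ∈ List.range 512, (dec m).card % 2 = if par m then 1 else 0 := by
  decide +kernel

/-- The coefficient of `X^k`. -/
def co (k : ℕ) : ℤ :=
  ((List.range 512).map (fun m => if lg (cnt m) = k then (if par m then (-1 : ℤ) else 1) else 0)).sum

lemma co_eq : co 0 = -8 ∧ co 1 = 28 ∧ co 2 = -38 ∧ co 3 = 25 ∧ co 4 = -8 ∧ co 5 = 1 := by
  decide +kernel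

lemma lg_lt (c : ℕ) : lg c < 6 := by
  unfold lg
  split_ifs <;> norm_num

lemma sum_co (k : ℕ) : ∑ m ∈ (Finset.range 512).filter (fun m => lg (cnt m) = k),
    (if par m then (-1 : ℤ) else 1) = co k := by
  rw [Finset.sum_filter, co]
  simp only [Finset.sum, Finset.range_val, Multiset.range, Multiset.map_coe, Multiset.sum_coe]

lemma penrose_CC : penrose CC = (X - 1) ^ 2 * (X - 2) ^ 3 := by
  have h1 : penrose CC = ∑ m ∈ Finset.range 512,
      Polynomial.C (if par m then (-1 : ℤ) else 1) * X ^ lg (cnt m) := by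
    rw [penrose, ← Function.Bijective.sum_comp dec_bij, Finset.sum_range]
    apply Finset.sum_congr rfl
    intro m _
    rw [finrank_bicycles]
    congr 1
    have := card_dec m (List.mem_range.2 m.2)
    split_ifs with hp
    · rw [if_pos hp] at this
      rw [Odd.neg_one_pow (Nat.odd_iff.2 this)]
      simp
    · rw [if_neg hp] at this
      rw [Even.neg_one_pow (Nat.even_iff.2 this)]
      simp
  have h2 : ∑ m ∈ Finset.range 512, Polynomial.C (if par m then (-1 : ℤ) else 1) * X ^ lg (cnt m) =
      ∑ k ∈ Finset.range 6, Polynomial.C (co k) * X ^ k := by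
    rw [← Finset.sum_fiberwise_of_maps_to (s := Finset.range 512) (t := Finset.range 6)
      (g := fun m => lg (cnt m)) (fun m _ => Finset.mem_range.2 (lg_lt _))]
    apply Finset.sum_congr rfl
    intro k _
    rw [← sum_co k, map_sum, Finset.sum_mul]
    apply Finset.sum_congr rfl
    intro m hm
    rw [(Finset.mem_filter.1 hm).2]
  rw [h1, h2]
  obtain ⟨c0, c1, c2, c3, c4, c5⟩ := co_eq
  rw [Finset.sum_range_succ, Finset.sum_range_succ, Finset.sum_range_succ, Finset.sum_range_succ,
    Finset.sum_range_succ, Finset.sum_range_succ, Finset.sum_range_zero, c0, c1, c2, c3, c4, c5]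
  simp only [map_neg, map_one, map_ofNat]
  ring

lemma sep_check : ∀ m ∈ List.range 512, m ≠ 0 → m ≠ 511 →
    ∃ u ∈ List.range 32, ∀ w ∈ List.range 32, enc u &&& m ≠ enc w := by
  decide +kernel

lemma connected_CC : Connected CC := by
  refine ⟨⟨0⟩, ?_⟩
  rintro ⟨E₁, h1, h2, h⟩
  obtain ⟨m, hm⟩ := dec_bij.2 E₁
  have hm' : dec m = E₁ := hm
  subst hm'
  obtain ⟨u, hu, hw⟩ := sep_check m (List.mem_range.2 m.2) (by
    intro h0
    obtain ⟨e, he⟩ := h1
    rw [mem_dec, h0] at he
    simp at he) (by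
    intro h0
    obtain ⟨e, he⟩ := h2
    rw [Finset.mem_compl, mem_dec, h0] at he
    apply he
    revert e
    decide)
  obtain ⟨c₁, hc₁, c₂, hc₂, hs₁, hs₂, heq⟩ := (h (vec (enc u))).1 ⟨u, List.mem_range.1 hu, rfl⟩
  have hcap : c₁ = vec (enc u &&& m) := by
    rw [← cap_vec, heq]
    funext e
    simp only [cap, Pi.add_apply]
    split_ifs with he
    · rw [hs₂ e he, add_zero]
    · exact hs₁ e he
  obtain ⟨w, hw', hcw⟩ := hc₁
  refine hw w (List.mem_range.2 hw') (vec_inj ?_ (enc_lt w (List.mem_range.2 hw')) ?_)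
  · exact lt_of_le_of_lt Nat.and_le_left (enc_lt u hu)
  · rw [← hcap, hcw]

/-- There is a connected binary matroid with nonzero Penrose polynomial of which `1` is not a
simple root. -/
theorem result :
    ¬ ∀ (E : Type) (_ : Fintype E) (_ : DecidableEq E) (C : Submodule (ZMod 2) (E → ZMod 2)),
      Connected C → penrose C ≠ 0 →
        (X - 1 ∣ penrose C ∧ ¬ (X - 1) ^ 2 ∣ penrose C) := by
  intro hall
  have h := hall (Fin 9) inferInstance inferInstance CC connected_CC (by
    rw [penrose_CC]
    have h1 : (X - 1 : ℤ[X]) ≠ 0 := by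
      have := X_sub_C_ne_zero (1 : ℤ)
      rwa [map_one] at this
    have h2 : (X - 2 : ℤ[X]) ≠ 0 := by
      have := X_sub_C_ne_zero (2 : ℤ)
      rwa [map_ofNat] at this
    exact mul_ne_zero (pow_ne_zero _ h1) (pow_ne_zero _ h2))
  apply h.2
  rw [penrose_CC]
  exact dvd_mul_right _ _

end Pool.Agent.Results.MP_8c6d5c_co.DoubleRoot
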